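import Pool.Agent.MP_ea150c_mp.H16.FSpec
import Pool.Agent.MP_ea150c_mp.H83.Ext

/-! The off diagonal entries exist (row ExH). -/

namespace Pool.Agent.MP_ea150c_mp.H96

open Pool.Agent.MP_ea150c_mp.H49 Pool.Agent.MP_ea150c_mp.H16 Pool.Agent.MP_ea150c_mp.H83

noncomputable section

set_option linter.unusedSectionVars false

section Gen
variable {O : Type} [CommRing O] {E E' : Type} [AddCommGroup E] [Module O E] [AddCommGroup E']
  [Module O E']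

theorem lift_sup {P : Type} [AddCommGroup P] [Module O P] [Module.Projective O P]
    (f : P →ₗ[O] E) (V N : Submodule O E) (h : ∀ x, f x ∈ V ⊔ N) :
    ∃ g : P →ₗ[O] E, (∀ x, g x ∈ V) ∧ ∀ x, g x - f x ∈ N := by
  let q : (V × N) →ₗ[O] (V ⊔ N : Submodule O E) :=
    (V.subtype.coprod N.subtype).codRestrict _ fun y =>
      Submodule.add_mem_sup y.1.2 y.2.2
  have hq : Function.Surjective q := by
    rintro ⟨y, hy⟩
    obtain ⟨a, ha, b, hb, rfl⟩ := Submodule.mem_sup.1 hy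
    exact ⟨(⟨a, ha⟩, ⟨b, hb⟩), rfl⟩
  obtain ⟨u, hu⟩ := Module.projective_lifting_property q (f.codRestrict _ h) hq
  refine ⟨V.subtype ∘ₗ LinearMap.fst O V N ∘ₗ u, fun x => (u x).1.2, fun x => ?_⟩
  have e : ((u x).1 : E) + (u x).2 = f x := congrArg Subtype.val (LinearMap.congr_fun hu x)
  have e2 : (V.subtype ∘ₗ LinearMap.fst O V N ∘ₗ u) x - f x = -((u x).2 : E) := by
    rw [← e]; simp
  rw [e2]
  exact N.neg_mem (u x).2.2

variable {I : Type} [LinearOrder I]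

theorem gen (M : Finset I → Submodule O E) (T V N : Finset I → Submodule O E')
    (τ : Finset I → Finset I) (f : Finset I → E →ₗ[O] E') (ε : O) (h0 : τ ∅ = ∅)
    (hV : ∀ J, V J ≤ T J) (hP : ∀ J, J.Nonempty → Module.Projective O (M J))
    (hf : ∀ J, (τ J).Nonempty → ∀ y ∈ M (τ J), f J y ∈ V J ⊔ N J)
    (hε : ∀ J, (τ J).Nonempty → (-1 : O) ^ (J.card + 1) = ε * (-1) ^ ((τ J).card + 1)) :
    ∃ g : Coch M →ₗ[O] Coch T, (∀ x J, (g x).1 J ∈ V J) ∧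
      (∀ x J, (g x).1 J - f J (x.1 (τ J)) ∈ N J) ∧
      ∀ (s : Coch M →ₗ[O] Coch M) (s' : Coch T →ₗ[O] Coch T),
        (∀ x J, (s x).1 J = ((-1 : O) ^ (J.card + 1)) • x.1 J) →
        (∀ x J, (s' x).1 J = ((-1 : O) ^ (J.card + 1)) • x.1 J) →
        ∀ x, s' (g x) = ε • g (s x) := by
  have key : ∀ J, ∃ u : M (τ J) →ₗ[O] E', (∀ y, u y ∈ V J) ∧ (τ J = ∅ → u = 0) ∧
      ((τ J).Nonempty → ∀ y, u y - f J y.1 ∈ N J) := by
    intro J
    rcases (τ J).eq_empty_or_nonempty with h | h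
    · refine ⟨0, fun _ => (V J).zero_mem, fun _ => rfl, fun h' => ?_⟩
      rw [h] at h'
      exact absurd h' Finset.not_nonempty_empty
    · haveI := hP _ h
      obtain ⟨u, h1, h2⟩ := lift_sup (f J ∘ₗ (M (τ J)).subtype) (V J) (N J)
        fun y => hf J h y.1 y.2
      exact ⟨u, h1, fun h' => absurd h' h.ne_empty, fun _ => h2⟩
  choose u u1 u2 u3 using key
  let ev : ∀ J, Coch M →ₗ[O] M J := fun J =>
    ((LinearMap.proj J : (Finset I → E) →ₗ[O] E) ∘ₗ (Coch M).subtype).codRestrict _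
      fun x => x.2.2 J
  let g0 : Coch M →ₗ[O] (Finset I → E') := LinearMap.pi fun J => u J ∘ₗ ev (τ J)
  have g0a : ∀ x J, g0 x J = u J (ev (τ J) x) := fun _ _ => rfl
  have hg : ∀ x, g0 x ∈ Coch T := fun x =>
    ⟨by rw [g0a, u2 _ h0]; rfl, fun J => hV J (u1 J _)⟩
  refine ⟨g0.codRestrict _ hg, fun x J => u1 J _, fun x J => ?_, fun s s' hs hs' x => ?_⟩
  · rcases (τ J).eq_empty_or_nonempty with h | h
    · have e1 : (g0.codRestrict _ hg x).1 J = 0 := by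
        change u J (ev (τ J) x) = 0
        rw [u2 _ h]; rfl
      have e2 : x.1 (τ J) = 0 := by rw [h]; exact x.2.1
      rw [e1, e2, map_zero, sub_zero]
      exact (N J).zero_mem
    · exact u3 J h (ev (τ J) x)
  · apply Subtype.ext
    funext J
    rw [hs']
    change _ • u J (ev (τ J) x) = ε • u J (ev (τ J) (s x))
    rcases (τ J).eq_empty_or_nonempty with h | h
    · rw [u2 _ h]; simp
    · have e : ev (τ J) (s x) = ((-1 : O) ^ ((τ J).card + 1)) • ev (τ J) x :=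
        Subtype.ext (hs x (τ J))
      rw [e, map_smul, smul_smul, hε J h]

theorem coch_sm (T : Finset I → Submodule O E) (c : O) (x : Coch T)
    (h : ∀ J, x.1 J ∈ sm c (T J)) : x ∈ sm c (⊤ : Submodule O (Coch T)) := by
  obtain ⟨y, hy, e, -⟩ := lift_coch (M := T) (M' := fun J => sm c (T J)) (LinearMap.lsmul O E c)
    (fun J _ z hz => (sm_iff _ _).1 hz) (y := x.1) ⟨x.2.1, h⟩
  exact (sm_iff _ _).2 ⟨⟨y, hy⟩, Submodule.mem_top, Subtype.ext (funext e)⟩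

theorem coch_sm2 (T T1 : Finset I → Submodule O E) (hT : ∀ J, T1 J ≤ T J) (c c' : O)
    (W : Submodule O (Coch T)) (hW : ∀ x, x ∈ W ↔ x.1 ∈ Coch T1) (x : Coch T)
    (h : ∀ J, x.1 J ∈ sm c (T1 J) ⊔ sm c' (T J)) :
    x ∈ sm c W ⊔ sm c' (⊤ : Submodule O (Coch T)) := by
  obtain ⟨y, hy, e, -⟩ := lift_coch (M := fun J => (T1 J).prod (T J))
    (M' := fun J => sm c (T1 J) ⊔ sm c' (T J))
    ((LinearMap.lsmul O E c).coprod (LinearMap.lsmul O E c'))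
    (fun J _ z hz => by
      obtain ⟨a, ha, b, hb, rfl⟩ := Submodule.mem_sup.1 hz
      obtain ⟨a', ha', rfl⟩ := (sm_iff _ _).1 ha
      obtain ⟨b', hb', rfl⟩ := (sm_iff _ _).1 hb
      exact ⟨(a', b'), ⟨ha', hb'⟩, rfl⟩) (y := x.1) ⟨x.2.1, h⟩
  have h1 : (fun J => (y J).1) ∈ Coch T1 := ⟨congrArg Prod.fst hy.1, fun J => (hy.2 J).1⟩
  have h1' : (fun J => (y J).1) ∈ Coch T := ⟨h1.1, fun J => hT J (h1.2 J)⟩
  have h2 : (fun J => (y J).2) ∈ Coch T := ⟨congrArg Prod.snd hy.1, fun J => (hy.2 J).2⟩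
  refine Submodule.mem_sup.2 ⟨c • ⟨_, h1'⟩, (sm_iff _ _).2 ⟨_, (hW _).2 h1, rfl⟩,
    c' • (⟨_, h2⟩ : Coch T), (sm_iff _ _).2 ⟨_, Submodule.mem_top, rfl⟩, ?_⟩
  exact Subtype.ext (funext e)

theorem sm_pow_le (c : O) {a b : ℕ} (hab : a ≤ b) {V W : Submodule O E} (h : V ≤ W) :
    sm (c ^ b) V ≤ sm (c ^ a) W := by
  intro x hx
  obtain ⟨y, hy, rfl⟩ := (sm_iff _ _).1 hx
  obtain ⟨d, rfl⟩ := Nat.exists_eq_add_of_le hab
  exact (sm_iff _ _).2 ⟨c ^ d • y, W.smul_mem _ (h hy), by rw [smul_smul, pow_add]⟩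

theorem sm_le (c : O) (V : Submodule O E) : sm c V ≤ V := by
  intro x hx
  obtain ⟨y, hy, rfl⟩ := (sm_iff _ _).1 hx
  exact V.smul_mem _ hy

variable [Inhabited I]

theorem mn_mem {J : Finset I} (h : J.Nonempty) : mn J ∈ J := by
  rw [mn, dif_pos h]
  exact J.min'_mem h

theorem tl_sub (J : Finset I) : tl J ⊆ J := Finset.erase_subset _ _

theorem tl_empty : tl (∅ : Finset I) = ∅ := Finset.erase_empty _

theorem tl_card {J : Finset I} (h : J.Nonempty) : J.card = (tl J).card + 1 :=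
  (Finset.card_erase_add_one (mn_mem h)).symm

end Gen

theorem torsionFree {p : ℕ} [Fact p.Prime] {E : Type} [AddCommGroup E] [Module ℤ_[p] E]
    (tf : ∀ b : E, (p : ℤ_[p]) • b = 0 → b = 0) : Module.IsTorsionFree ℤ_[p] E := by
  have hn : ∀ (n : ℕ) (b : E), (p : ℤ_[p]) ^ n • b = 0 → b = 0 := by
    intro n
    induction n with
    | zero => intro b hb; simpa using hb
    | succ n ih =>
      intro b hb
      rw [pow_succ, mul_smul] at hb
      exact tf _ (ih _ hb)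
  refine Module.IsTorsionFree.of_smul_eq_zero fun a b hab => ?_
  by_cases ha : a = 0
  · exact Or.inl ha
  · right
    rw [PadicInt.unitCoeff_spec ha, mul_smul] at hab
    exact hn _ _ ((PadicInt.unitCoeff ha).isUnit.smul_eq_zero.1 hab)

theorem proj_of_fg {p : ℕ} [Fact p.Prime] {E : Type} [AddCommGroup E] [Module ℤ_[p] E]
    (tf : ∀ b : E, (p : ℤ_[p]) • b = 0 → b = 0) (V : Submodule ℤ_[p] E) (h : V.FG) :
    Module.Projective ℤ_[p] V := by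
  haveI := torsionFree tf
  haveI : Module.Finite ℤ_[p] V := Module.Finite.iff_fg.2 h
  infer_instance

section Frame
variable {p : ℕ} [Fact p.Prime] {A B Γ I ι : Type} {σ : I → Type}
  [CommRing A] [Algebra ℤ_[p] A] [AddCommGroup B] [Module A B] [Module ℤ_[p] B]
  [IsScalarTower ℤ_[p] A B] [AddCommGroup Γ] [LinearOrder I] [Fintype I] [Fintype ι]
  [DecidableEq ι] [∀ j, Fintype (σ j)] [∀ j, DecidableEq (σ j)] [Inhabited I]
  {F : FrameData p A B Γ I ι σ}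

theorem tfY (hL : F.AxL) (z : (A →ₗ[ℤ_[p]] B) × (ι → B)) (h : (p : ℤ_[p]) • z = 0) : z = 0 := by
  refine Prod.ext ?_ ?_
  · ext r
    exact hL.tf _ (LinearMap.congr_fun (congrArg Prod.fst h) r)
  · funext i
    exact hL.tf _ (congrFun (congrArg Prod.snd h) i)

theorem Lt_fg (hL : F.AxL) (f2 : F.F2) {J : Finset I} (hJ : J.Nonempty) (m : ℕ) :
    (F.Lt J m).FG := by
  refine (f2.2.2.2.2 J 0 m hJ).prod (Submodule.fg_pi fun i => ?_)
  split_ifs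
  · exact Submodule.fg_bot
  · exact hL.fg J 0 _ hJ

theorem X_fg (hL : F.AxL) (f1 : F.F1) (f2 : F.F2) {J : Finset I} (hJ : J.Nonempty) (m : ℕ) :
    (F.X J m).FG :=
  (Lt_fg hL f2 hJ m).of_le (f1.2.2.2.2.2.2.2.1 J m)

theorem Lt_mono (hL : F.AxL) (f1 : F.F1) {J J' : Finset I} {m m' : ℕ} (h : J ⊆ J')
    (hm : m ≤ m') : F.Lt J m ≤ F.Lt J' m' := by
  rintro z ⟨h1, h2⟩
  refine ⟨f1.1 J J' 0 m m' h hm h1, fun i hi => ?_⟩
  have h3 : z.2 i ∈ (if m = 0 then ⊥ else F.Bl J 0 (m - 1)) := h2 i hi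
  change z.2 i ∈ (if m' = 0 then ⊥ else F.Bl J' 0 (m' - 1))
  by_cases h0 : m = 0
  · rw [if_pos h0, Submodule.mem_bot] at h3
    rw [h3]
    exact Submodule.zero_mem _
  · rw [if_neg h0] at h3
    rw [if_neg (by omega)]
    exact hL.lev J' 0 _ _ (by omega) (hL.monoL J J' 0 _ h h3)

theorem Lt_small (hL : F.AxL) (f1 : F.F1) (J : Finset I) (l : ℕ) {S n : ℕ} (h : S ≤ n) :
    sm ((p : ℤ_[p]) ^ n) (F.Lt J l) ≤ F.WCt J S := by
  intro x hx
  obtain ⟨z, ⟨h1, h2⟩, rfl⟩ := (sm_iff _ _).1 hx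
  refine ⟨fun J' hJ w' r hr => ?_, fun i hi => ?_⟩
  · exact sm_pow_le _ h (hL.le J' _ l) ((sm_iff _ _).2 ⟨_, f1.2.2.1 J J' 0 w' l _ r hJ h1 hr, rfl⟩)
  · have h3 : z.2 i ∈ (if l = 0 then ⊥ else F.Bl J 0 (l - 1)) := h2 i hi
    have h4 : z.2 i ∈ F.Bh J 0 := by
      by_cases h0 : l = 0
      · rw [if_pos h0, Submodule.mem_bot] at h3
        rw [h3]
        exact Submodule.zero_mem _
      · rw [if_neg h0] at h3
        exact hL.le J 0 _ h3
    exact sm_pow_le _ h le_rfl ((sm_iff _ _).2 ⟨_, h4, rfl⟩)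

theorem appX (hL : F.AxL) (f1 : F.F1) {J : Finset I} {M S : ℕ} (hS : S ≤ nu M)
    {z : (A →ₗ[ℤ_[p]] B) × (ι → B)} (h : F.AppX J z) :
    z ∈ sm ((p : ℤ_[p]) ^ 2) (F.X J M) ⊔ F.WCt J S := by
  refine (sup_le (iSup_le fun l => ?_) le_sup_right :
    _ ≤ sm ((p : ℤ_[p]) ^ 2) (F.X J M) ⊔ F.WCt J S) (h S)
  have mono := f1.2.2.2.2.2.2.2.2.2.1
  by_cases h1 : l ≤ 1
  · refine (sm_le _ _).trans ((mono J J l 1 le_rfl h1).trans ?_)
    rw [f1.2.2.2.2.2.2.2.2.2.2 J]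
    exact bot_le
  · by_cases h2 : l ≤ M
    · exact le_sup_of_le_left (sm_pow_le _ (by unfold nu; omega) (mono J J l M le_rfl h2))
    · refine le_sup_of_le_right ((sm_pow_le _ le_rfl (f1.2.2.2.2.2.2.2.1 J l)).trans
        (Lt_small hL f1 J l ?_))
      unfold nu at hS ⊢
      omega

theorem appL (hL : F.AxL) (f1 : F.F1) {J : Finset I} {M S : ℕ} (hS : S ≤ nu M)
    {P : A →ₗ[ℤ_[p]] B} (h : F.AppL J 0 P) :
    ((P, 0) : (A →ₗ[ℤ_[p]] B) × (ι → B)) ∈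
      (sm (p : ℤ_[p]) (F.Lt J 1) ⊔ sm ((p : ℤ_[p]) ^ 2) (F.Lt J M)) ⊔ F.WCt J S := by
  have inl : ∀ l (c : ℤ_[p]), sm c (F.L J 0 l) ≤
      (sm c (F.Lt J l)).comap (LinearMap.inl ℤ_[p] (A →ₗ[ℤ_[p]] B) (ι → B)) := by
    intro l c x hx
    obtain ⟨y, hy, rfl⟩ := (sm_iff _ _).1 hx
    exact (sm_iff _ _).2 ⟨(y, 0), ⟨hy, Submodule.zero_mem _⟩, by simp⟩
  refine (sup_le (iSup_le fun l => (inl l _).trans (Submodule.comap_mono ?_)) ?_ :
    _ ≤ ((sm (p : ℤ_[p]) (F.Lt J 1) ⊔ sm ((p : ℤ_[p]) ^ 2) (F.Lt J M)) ⊔ F.WCt J S).comap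
      (LinearMap.inl ℤ_[p] (A →ₗ[ℤ_[p]] B) (ι → B))) (h S)
  · by_cases h0 : l = 0
    · subst h0
      refine (sm_le _ _).trans ?_
      rintro z ⟨h1, h2⟩
      rw [f1.2.1 J 0] at h1
      have e : z = 0 := Prod.ext h1 (funext fun i => h2 i (Set.mem_univ _))
      rw [e]
      exact Submodule.zero_mem _
    · by_cases h1 : l = 1
      · subst h1
        refine le_sup_of_le_left (le_sup_of_le_left ?_)
        have e : nu 1 = 1 := rfl
        rw [e, pow_one]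
      · by_cases h2 : l ≤ M
        · exact le_sup_of_le_left (le_sup_of_le_right
            (sm_pow_le _ (by unfold nu; omega) (Lt_mono hL f1 le_rfl h2)))
        · refine le_sup_of_le_right (Lt_small hL f1 J l ?_)
          unfold nu at hS ⊢
          omega
  · intro x hx
    exact Submodule.mem_sup_right ⟨hx, Submodule.zero_mem _⟩

theorem sign_tl {J : Finset I} (h : (tl J).Nonempty) :
    (-1 : ℤ_[p]) ^ (J.card + 1) = (-1) * (-1) ^ ((tl J).card + 1) := by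
  rw [tl_card (h.mono (tl_sub J)), pow_succ]
  ring

theorem sign_smul_mem {E : Type} [AddCommGroup E] [Module ℤ_[p] E] (V : Submodule ℤ_[p] E)
    (n : ℕ) {x : E} (h : x ∈ V) : ((-1 : ℤ_[p]) ^ n) • x ∈ V := V.smul_mem _ h

theorem qExH (hL : F.AxL) (f1 : F.F1) (f2 : F.F2) (f3 : F.F3a) (f4 : F.F3b) : QExH F := by
  intro M S C hM hS R
  have pB : ∀ J : Finset I, J.Nonempty → Module.Projective ℤ_[p] (F.Bl J 0 M) :=
    fun J hJ => proj_of_fg hL.tf _ (hL.fg J 0 M hJ)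
  have pL : ∀ J : Finset I, J.Nonempty → Module.Projective ℤ_[p] (F.Lt J M) :=
    fun J hJ => proj_of_fg (tfY hL) _ (Lt_fg hL f2 hJ M)
  have pX : ∀ J : Finset I, J.Nonempty → Module.Projective ℤ_[p] (F.X J M) :=
    fun J hJ => proj_of_fg (tfY hL) _ (X_fg hL f1 f2 hJ M)
  let inl := LinearMap.inl ℤ_[p] (A →ₗ[ℤ_[p]] B) (ι → B)
  obtain ⟨gX, x1, x2, x3⟩ := gen (fun J => F.X J M) (fun J => F.X J M)
    (fun J => sm ((p : ℤ_[p]) ^ 2) (F.X J M)) (fun J => F.WCt J S) id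
    (fun J => F.ΨLt (mn J)) 1 rfl (fun J => sm_le _ _) pX
    (fun J hJ y hy => appX hL f1 hS (f3.2.2 J _ M y (mn_mem hJ) hy))
    (fun J _ => (one_mul _).symm)
  obtain ⟨gH, h1, h2, h3⟩ := gen (fun J => F.Bl J 0 M) (fun J => F.Lt J M)
    (fun J => sm (p : ℤ_[p]) (F.Lt J 1) ⊔ sm ((p : ℤ_[p]) ^ 2) (F.Lt J M)) (fun J => F.WCt J S) tl
    (fun J => ((-1 : ℤ_[p]) ^ (J.card + 1)) • (inl ∘ₗ F.Hop (mn J) (mn (tl J)))) (-1) tl_empty
    (fun J => sup_le ((sm_le _ _).trans (Lt_mono hL f1 le_rfl hM)) (sm_le _ _)) pB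
    (fun J hJ y hy => sign_smul_mem _ _ (appL hL f1 hS (f3.2.1 J _ _ 0 y
      (mn_mem (hJ.mono (tl_sub J))) (tl_sub J (mn_mem hJ))
      (by rw [smul_zero]; exact hL.le J 0 M (hL.monoL _ J 0 M (tl_sub J) hy)))))
    (fun J hJ => sign_tl hJ)
  obtain ⟨gK, k1, k2, k3⟩ := gen (fun J => F.Lt J M) (fun J => F.X J M)
    (fun J => sm ((p : ℤ_[p]) ^ 2) (F.X J M)) (fun J => F.WCt J S) tl
    (fun J => ((-1 : ℤ_[p]) ^ (J.card + 1)) • (F.ΨLt (mn J) - F.ΨLt (mn (tl J)) -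
      inl ∘ₗ F.Hop (mn J) (mn (tl J)) ∘ₗ F.dLt)) (-1) tl_empty
    (fun J => sm_le _ _) pL
    (fun J hJ y hy => sign_smul_mem _ _ (appX hL f1 hS (f4.2 J _ _ M y
      (mn_mem (hJ.mono (tl_sub J))) (tl_sub J (mn_mem hJ))
      (Lt_mono hL f1 (tl_sub J) le_rfl hy))))
    (fun J hJ => sign_tl hJ)
  obtain ⟨gB, b1, b2, b3⟩ := gen (fun J => F.Bl J 0 M) (fun J => F.X J M)
    (fun J => sm ((p : ℤ_[p]) ^ 2) (F.X J M)) (fun J => F.WCt J S) (fun J => tl (tl J))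
    (fun J => inl ∘ₗ (F.Hop (mn J) (mn (tl J)) + F.Hop (mn (tl J)) (mn (tl (tl J))) -
      F.Hop (mn J) (mn (tl (tl J))))) 1 (by rw [tl_empty, tl_empty])
    (fun J => sm_le _ _) pB
    (fun J hJ y hy => by
      have hJ1 := hJ.mono (tl_sub _)
      have hsub : tl (tl J) ⊆ J := (tl_sub _).trans (tl_sub J)
      have h := Submodule.neg_mem _ (appX hL f1 hS (f4.1 J _ _ _ y
        (mn_mem (hJ1.mono (tl_sub J))) (tl_sub J (mn_mem hJ1)) (hsub (mn_mem hJ))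
        (hL.le J 0 M (hL.monoL _ J 0 M hsub hy))))
      have e : (inl ∘ₗ (F.Hop (mn J) (mn (tl J)) + F.Hop (mn (tl J)) (mn (tl (tl J))) -
          F.Hop (mn J) (mn (tl (tl J))))) y = -(F.Hop (mn J) (mn (tl (tl J))) y -
          F.Hop (mn J) (mn (tl J)) y - F.Hop (mn (tl J)) (mn (tl (tl J))) y, 0) := by
        refine Prod.ext ?_ ?_
        · simp only [inl, LinearMap.comp_apply, LinearMap.inl_apply, LinearMap.sub_apply,
            LinearMap.add_apply, Prod.fst_neg]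
          abel
        · simp [inl]
      rw [e]
      exact h)
    (fun J hJ => by
      rw [sign_tl (hJ.mono (tl_sub _)), sign_tl hJ]
      ring)
  refine ⟨⟨0, 0, gX, gH, gK, gB⟩, ⟨fun x => ?_, fun x => ?_, fun x => ?_, fun x => ?_,
    fun x => coch_sm _ _ _ (x1 x), fun x => ?_, fun x => coch_sm _ _ _ (k1 x),
    fun x => coch_sm _ _ _ (b1 x)⟩, ⟨x2, h2, k2, b2⟩⟩
  · exact (x3 _ _ R.sX R.sX x).trans (one_smul _ _)
  · exact (h3 _ _ R.sB R.sL x).trans (neg_one_smul ℤ_[p] (gH (C.sB x)))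
  · exact (k3 _ _ R.sL R.sX x).trans (neg_one_smul ℤ_[p] (gK (C.sL x)))
  · exact (b3 _ _ R.sB R.sX x).trans (one_smul _ _)
  · exact coch_sm2 _ (fun J => F.Lt J 1) (fun J => Lt_mono hL f1 le_rfl hM) _ _ _ R.L1 _ (h1 x)

end Frame

theorem exH : ExH := by
  intro p _ A B Γ I ι σ _ _ _ _ _ _ _ _ _ _ _ _ _ _ F _ hL _ f1 f2 f3 f4
  exact qExH hL f1 f2 f3 f4

end

end Pool.Agent.MP_ea150c_mp.H96
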