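import Pool.Agent.MP_ea150c_mp.H49.SpecG

/-! The models of a position graph are good; their level zero weights. -/

namespace Pool.Agent.MP_ea150c_mp.H96

open Pool.Agent.MP_ea150c_mp.H49 MvPolynomial

noncomputable section

variable {I E : Type} [DecidableEq I] [Fintype I] [Fintype E] [DecidableEq E]

section Hom
variable (G : PG I E) (R S : Finset I)

theorem hX (x : Var I (Ex R)) (w : Gam I) (h : (G.model R S).wtv x = w) :
    IsWeightedHomogeneous (G.model R S).wtv (X x : MvPolynomial (Var I (Ex R)) ℤ) w :=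
  h ▸ isWeightedHomogeneous_X ℤ _ x

theorem hAl (v : I) :
    IsWeightedHomogeneous (G.model R S).wtv (alP R v) (Pi.single v 1, 1, 0, 0) := by
  unfold alP
  split_ifs
  · exact isWeightedHomogeneous_zero ℤ _ _
  · exact hX G R S _ _ rfl

theorem hBe (v : I) :
    IsWeightedHomogeneous (G.model R S).wtv (beP R v) (Pi.single v 1, -1, 0, 0) :=
  hX G R S _ _ rfl

theorem hMul {f g : MvPolynomial (Var I (Ex R)) ℤ} {a b c : Gam I}
    (hf : IsWeightedHomogeneous (G.model R S).wtv f a)
    (hg : IsWeightedHomogeneous (G.model R S).wtv g b) (h : a + b = c) :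
    IsWeightedHomogeneous (G.model R S).wtv (f * g) c := h ▸ hf.mul hg

theorem hXX (u v : I) (s t : Fin 4) (h : s.val + t.val = 3) :
    IsWeightedHomogeneous (G.model R S).wtv
      (X (Sum.inl (u, s)) * X (Sum.inl (v, t)) : MvPolynomial (Var I (Ex R)) ℤ)
      (Pi.single u 1 + Pi.single v 1, 0, 0, 0) := by
  refine hMul G R S (hX G R S _ _ rfl) (hX G R S _ _ rfl) ?_
  fin_cases s <;> fin_cases t <;> simp at h <;> simp [Model.wtv]

theorem hQ (v : I) :
    IsWeightedHomogeneous (G.model R S).wtv (qP R v) (Pi.single v 2, 0, 0, 0) := by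
  have e : (Pi.single v 2 : I → ℤ) = Pi.single v 1 + Pi.single v 1 := by
    rw [← Pi.single_add]; rfl
  rw [e]
  exact ((hMul G R S (hAl G R S v) (hBe G R S v) (by simp)).add (hXX G R S v v 0 3 rfl)).add
    (hXX G R S v v 1 2 rfl)

theorem hE (a b : Option I) (hab : a ≠ b) :
    IsWeightedHomogeneous (G.model R S).wtv (edgeP R a b)
      (degO a + degO b, -((if a = none then 1 else 0) + (if b = none then 1 else 0)), 0, 0) := by
  rcases a with _ | u <;> rcases b with _ | v
  · exact absurd rfl hab
  · simpa [edgeP, degO] using hBe G R S v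
  · simpa [edgeP, degO] using hBe G R S u
  · have := ((hMul G R S (hAl G R S u) (hBe G R S v)
      (c := (Pi.single u 1 + Pi.single v 1, 0, 0, 0)) (by simp)).add
      (hMul G R S (hBe G R S u) (hAl G R S v) (by simp))).add
      ((((hXX G R S u v 0 3 rfl).add (hXX G R S u v 3 0 rfl)).add (hXX G R S u v 1 2 rfl)).add
        (hXX G R S u v 2 1 rfl))
    simpa [edgeP, degO, xxP] using this

theorem invAl (A : Type) [CommRing A] (n n' : A) (x : Var I (Ex R) → A) (v : I) :
    eval₂ (Int.castRingHom A) (gshift n n' x) (alP R v) =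
      eval₂ (Int.castRingHom A) x (alP R v) := by
  unfold alP
  split_ifs
  · simp
  · simp [gshift]

theorem good (hG : G.Good) : (G.model R S).Good := by
  refine ⟨?_, fun i m hm => ?_, fun i A _ n n' x => ?_⟩
  · rintro (t | t)
    · exact Or.inl rfl
    · exact Or.inr rfl
  · have h1 : IsWeightedHomogeneous (G.model R S).wtv ((G.model R S).f i)
        ((G.model R S).om i) := by
      rcases i with v | e | v
      · exact hQ G R S v.1
      · exact hE G R S _ _ (hG.noloop e)
      · exact hAl G R S v.1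
    rw [← h1 (mem_support_iff.1 hm), Finsupp.weight_apply, Finsupp.sum_fintype _ _ (by simp)]
    simp only [Model.wt, natCast_zsmul]
  · rcases i with v | e | v
    · show eval₂ _ _ (qP R v.1) = eval₂ _ _ (qP R v.1)
      simp only [qP, beP, eval₂_add, eval₂_mul, eval₂_X, invAl, gshift, Fin.reduceEq, if_true,
        if_false]
      ring
    · show eval₂ _ _ (edgeP R (G.src e) (G.tgt e)) = eval₂ _ _ (edgeP R (G.src e) (G.tgt e))
      rcases G.src e with _ | u <;> rcases G.tgt e with _ | v <;>
        simp only [edgeP, xxP, beP, eval₂_add, eval₂_mul, eval₂_X, eval₂_one, invAl, gshift,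
          Fin.reduceEq, if_true, if_false]
      ring
    · exact invAl R A n n' x v.1

end Hom

theorem sum_sub (T : Finset I) (g : I → ℤ) (v : I) :
    ∑ s : {w : I // w ∈ T}, g s.1 * (Pi.single s.1 1 : I → ℤ) v = if v ∈ T then g v else 0 := by
  rw [Finset.sum_coe_sort T fun s => g s * (Pi.single s 1 : I → ℤ) v]
  simp [Pi.single_apply]

theorem wt_fst (G : PG I E) (R S : Finset I) (u : Var I (Ex R) → ℤ) (v : I) :
    ((G.model R S).wt u).1 v = ∑ t : Fin 4, u (Sum.inl (v, t)) +
      ((if h : v ∉ R then u (Sum.inr (Sum.inl ⟨v, h⟩)) else 0) + u (Sum.inr (Sum.inr v))) := by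
  rw [Model.wt, Prod.fst_sum, Finset.sum_apply]
  simp only [Fintype.sum_sum_type, Fintype.sum_prod_type,
    Prod.smul_fst, Pi.smul_apply, smul_eq_mul, Model.wtv, PG.model, Sum.elim_inl, Sum.elim_inr,
    id, Pi.single_apply, mul_ite, mul_one, mul_zero]
  congr 1
  · rw [Finset.sum_comm]
    simp
  · congr 1
    · by_cases h : v ∈ R
      · rw [dif_neg (not_not.2 h)]
        exact Finset.sum_eq_zero fun s _ => if_neg fun (e : v = s.1) => s.2 (e ▸ h)
      · rw [dif_pos h, Finset.sum_eq_single ⟨v, h⟩, if_pos rfl]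
        · exact fun s _ hs => if_neg fun (e : v = s.1) => hs (Subtype.ext e.symm)
        · simp
    · rw [Finset.sum_eq_single v, if_pos rfl]
      · exact fun s _ hs => if_neg fun (e : v = s) => hs e.symm
      · simp

theorem wt_snd (G : PG I E) (R S : Finset I) (u : Var I (Ex R) → ℤ) :
    ((G.model R S).wt u).2.1 =
      ∑ s : {v : I // v ∉ R}, u (Sum.inr (Sum.inl s)) - ∑ v, u (Sum.inr (Sum.inr v)) := by
  rw [Model.wt, Prod.snd_sum, Prod.fst_sum]
  simp [Fintype.sum_sum_type, Model.wtv, PG.model, sub_eq_add_neg]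

theorem wt_one (G : PG I E) (R S : Finset I) :
    ((G.model R S).wt fun _ => 1).2.2 = (0, 0) := by
  rw [Model.wt, Prod.snd_sum, Prod.snd_sum]
  simp [Fintype.sum_sum_type, Fintype.sum_prod_type, Model.wtv, Fin.sum_univ_four]

theorem degO_apply (a : Option I) (v : I) : degO a v = if a = some v then 1 else 0 := by
  rcases a with _ | u
  · simp [degO]
  · simp [degO, Pi.single_apply, eq_comm]

theorem w0_eq (G : PG I E) (hG : G.Good) (R S : Finset I) :
    (G.model R S).w0 = (fun v => 2 * (if v ∈ S then 1 else 0) - 2 + (if v ∈ R then 1 else 0),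
      (R.card : ℤ), 2, 2) := by
  have h22 := wt_one G R S
  refine Prod.ext ?_ (Prod.ext ?_ ?_)
  · funext v
    have h1 := hG.reg v
    have h2 : ((G.deg (some v) : ℕ) : ℤ) = ∑ e, (degO (G.src e) v + degO (G.tgt e) v) := by
      simp [PG.deg, degO_apply, Finset.sum_add_distrib]
    have h3 := sum_sub S (fun _ => 2) v
    have h4 := sum_sub G.N0 (fun _ => 1) v
    have h5 : ∀ s : I, (Pi.single s 2 : I → ℤ) v = 2 * (Pi.single s 1 : I → ℤ) v := fun s => by
      simp [Pi.single_apply]
    simp only [Model.w0, Prod.fst_add, Prod.fst_sub, Pi.add_apply, Pi.sub_apply, wt_fst,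
      Prod.fst_sum, Finset.sum_apply, Fintype.sum_sum_type, Model.om]
    simp only [PG.model, Sum.elim_inl, Sum.elim_inr, Pi.add_apply, h5, h3, ← h2]
    simp only [one_mul] at h4
    rw [h4]
    simp only [Finset.sum_const, Finset.card_univ, Fintype.card_fin, Pi.zero_apply]
    split_ifs at h1 ⊢ <;> simp <;> omega
  · have h1 := hG.root
    have h2 : ((G.deg none : ℕ) : ℤ) = ∑ e, ((if G.src e = none then 1 else 0) +
        (if G.tgt e = none then 1 else 0) : ℤ) := by
      simp [PG.deg, Finset.sum_add_distrib]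
    have h3 := hG.card
    have h4 : Fintype.card {v : I // v ∉ R} + R.card = Fintype.card I := by
      rw [Fintype.card_subtype_compl, Fintype.card_coe]
      have := Finset.card_le_univ R
      omega
    simp only [Model.w0, Prod.fst_add, Prod.fst_sub, Prod.snd_add, Prod.snd_sub, wt_snd,
      Prod.fst_sum, Prod.snd_sum, Fintype.sum_sum_type, Model.om]
    simp only [PG.model, Sum.elim_inl, Sum.elim_inr, Finset.sum_neg_distrib, ← h2,
      Finset.sum_const, Finset.card_univ, Fintype.card_coe, nsmul_eq_mul]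
    omega
  · simp only [Model.w0, Prod.snd_add, Prod.snd_sub, h22, Prod.snd_sum, Model.om]
    ext <;> simp [Prod.fst_sum, Prod.snd_sum]

end

theorem a1 : A1 := by
  intro I E _ _ _ _ G hG
  refine ⟨fun R S => good G R S hG, ?_, ?_, fun R S hne => ⟨?_, _, _, w0_eq G hG R S, ?_⟩⟩
  · rw [w0_eq G hG]
    ext <;> simp
  · have : Fintype.card {v : I // v ∉ (∅ : Finset I)} = Fintype.card I := by simp
    simp only [Fintype.card_sum, Fintype.card_prod, Fintype.card_fin, this]
    exact ⟨3 * Fintype.card I, by ring⟩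
  · have h1 := hG.four
    have h2 := Finset.card_le_univ S
    rw [w0_eq G hG]
    simp only [H49.Small, Finset.sum_add_distrib, Finset.sum_sub_distrib, ← Finset.mul_sum,
      Finset.sum_boole, Finset.filter_mem_eq_inter, Finset.univ_inter, Finset.sum_const,
      Finset.card_univ, nsmul_eq_mul, Nat.abs_cast]
    omega
  · intro u hu h1 h2
    have h3 : ∀ v, 0 ≤ ∑ t : Fin 4, u (Sum.inl (v, t)) := fun v =>
      Finset.sum_nonneg fun _ _ => hu _
    have h4 : ∀ v, v ∈ S := by
      intro v
      by_contra hv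
      have h5 := congrFun h1 v
      have h6 := h3 v
      have h7 := hu (Sum.inr (Sum.inr v))
      rw [wt_fst, if_neg hv] at h5
      by_cases hR : v ∈ R
      · rw [dif_neg (not_not.2 hR), if_pos hR] at h5
        omega
      · have h8 := hu (Sum.inr (Sum.inl ⟨v, hR⟩))
        rw [dif_pos hR, if_neg hR] at h5
        omega
    have hR : R ≠ ∅ := fun e => hne (Prod.ext e (Finset.eq_univ_of_forall h4))
    have h5 : 0 < R.card := Finset.card_pos.2 (Finset.nonempty_iff_ne_empty.2 hR)
    have h6 : ∑ s : {v : I // v ∉ R}, u (Sum.inr (Sum.inl s)) = 0 := by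
      refine Finset.sum_eq_zero fun s _ => ?_
      have h7 := congrFun h1 s.1
      have h8 := h3 s.1
      have h9 := hu (Sum.inr (Sum.inr s.1))
      have h10 := hu (Sum.inr (Sum.inl s))
      rw [wt_fst, dif_pos s.2, if_pos (h4 _), if_neg s.2] at h7
      change _ + (u (Sum.inr (Sum.inl s)) + _) = _ at h7
      omega
    have h7 : 0 ≤ ∑ v, u (Sum.inr (Sum.inr v)) := Finset.sum_nonneg fun _ _ => hu _
    rw [wt_snd, h6] at h2
    omega

end Pool.Agent.MP_ea150c_mp.H96
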